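import Pool.Agent.Helper76.TW.Goals

/-! # TW: the main theorem (packet FN) -/

set_option autoImplicit false

open Finset Filter Topology

open scoped Classical

namespace Pool.Agent.Helper85.TW

open Pool.Agent.Helper76.TW

/-- from a window to the enumeration -/
theorem window (p : ℕ → Prop) (hp : (Set.ofPred p).Infinite) (n Y m : ℕ)
    (h : m + 1 ≤ ((Icc 1 Y).filter (fun h => p (n + h))).card) :
    ∃ s : ℕ, n < Nat.nth p s ∧ Nat.nth p (s + m) ≤ n + Y := by
  refine ⟨Nat.count p (n + 1), ?_, ?_⟩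
  · have := Nat.le_nth_count hp (n + 1)
    omega
  · have h1 : Nat.count p (n + 1) + m < Nat.count p (n + 1 + Y) := by
      rw [Nat.count_add p (n + 1) Y]
      have h2 : ((Icc 1 Y).filter (fun h => p (n + h))).card ≤
          Nat.count (fun k => p (n + 1 + k)) Y := by
        rw [Nat.count_eq_card_filter_range]
        refine card_le_card_of_injOn (fun h => h - 1) ?_ ?_
        · intro h hh
          simp only [coe_filter, mem_Icc, Set.mem_ofPred_eq] at hh
          simp only [coe_filter, mem_range, Set.mem_ofPred_eq]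
          refine ⟨by omega, ?_⟩
          have : n + 1 + (h - 1) = n + h := by omega
          rw [this]
          exact hh.2
        · intro a ha b hb hab
          simp only [coe_filter, mem_Icc, Set.mem_ofPred_eq] at ha hb
          simp only at hab
          omega
      omega
    have h3 := Nat.nth_lt_of_lt_count h1
    omega

/-- counting -/
theorem cnt (p : ℕ → Prop) (hp : (Set.ofPred p).Infinite) (N : Finset ℕ) (Y m q a B : ℕ)
    (hB : ∀ n ∈ N, n ≤ B)
    (h : ∀ n ∈ N, m + 1 ≤ ((Icc 1 Y).filter (fun h => p (n + h))).card ∧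
      ∀ h ∈ Icc 1 Y, p (n + h) → n + h ≡ a [MOD q]) :
    ∃ S : Finset ℕ, N.card ≤ Y * S.card ∧ ∀ s ∈ S, Nat.nth p s ≤ B + Y ∧
      ∀ i ≤ m, Nat.nth p (s + i) ≡ a [MOD q] := by
  have hw : ∀ n ∈ N, ∃ s : ℕ, n < Nat.nth p s ∧ Nat.nth p (s + m) ≤ n + Y :=
    fun n hn => window p hp n Y m (h n hn).1
  choose! f h1 h2 using hw
  have hmono : StrictMono (Nat.nth p) := Nat.nth_strictMono hp
  refine ⟨N.image f, ?_, ?_⟩
  · refine card_le_mul_card_image N Y ?_
    intro s hs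
    have h4 : N.filter (fun n => f n = s) ⊆ Ico (Nat.nth p s - Y) (Nat.nth p s) := by
      intro n hn
      rw [mem_filter] at hn
      obtain ⟨hn1, hn2⟩ := hn
      have h5 := h1 n hn1
      have h6 := h2 n hn1
      rw [hn2] at h5 h6
      have h7 : Nat.nth p s ≤ Nat.nth p (s + m) := hmono.monotone (by omega)
      rw [mem_Ico]
      omega
    refine (card_le_card h4).trans ?_
    rw [Nat.card_Ico]
    omega
  · intro s hs
    obtain ⟨n, hn, rfl⟩ := mem_image.1 hs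
    have h5 := h1 n hn
    have h6 := h2 n hn
    have h7 : Nat.nth p (f n) ≤ Nat.nth p (f n + m) := hmono.monotone (by omega)
    refine ⟨by have := hB n hn; omega, fun i hi => ?_⟩
    have h8 : Nat.nth p (f n) ≤ Nat.nth p (f n + i) := hmono.monotone (by omega)
    have h9 : Nat.nth p (f n + i) ≤ Nat.nth p (f n + m) := hmono.monotone (by omega)
    have h10 := (h n hn).2 (Nat.nth p (f n + i) - n) (by rw [mem_Icc]; omega)
    have h11 : n + (Nat.nth p (f n + i) - n) = Nat.nth p (f n + i) := by omega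
    rw [h11] at h10
    exact h10 (Nat.nth_mem_of_infinite hp _)

theorem nth_le_ncard (p : ℕ → Prop) (hp : (Set.ofPred p).Infinite) (x : ℕ) (h0 : ¬ p 0) :
    {n : ℕ | Nat.nth p n ≤ x}.ncard = ((Icc 1 x).filter (fun n => p n)).card := by
  have h1 : {n : ℕ | Nat.nth p n ≤ x} = ((range (Nat.count p (x + 1)) : Finset ℕ) : Set ℕ) := by
    ext n
    simp only [Set.mem_ofPred_eq, coe_range, Set.mem_Iio]
    rw [← not_le, ← not_lt, Nat.count_le_iff_le_nth hp]
    exact not_congr Nat.lt_iff_add_one_le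
  rw [h1, Set.ncard_coe_finset, card_range, Nat.count_eq_card_filter_range]
  congr 1
  ext n
  simp only [mem_filter, mem_range, mem_Icc]
  constructor
  · rintro ⟨a, b⟩
    refine ⟨⟨?_, by omega⟩, b⟩
    rcases Nat.eq_zero_or_pos n with h | h
    · rw [h] at b
      exact absurd b h0
    · exact h
  · rintro ⟨⟨a, b⟩, c⟩
    exact ⟨by omega, c⟩

theorem one (h1 : StmtPK) (h2 : StmtSB) (m q a : ℕ) (hq : 1 ≤ q)
    (hc : Nat.Coprime (a * (a + 2)) q) : ∃ K₀ : ℕ, ∀ K : ℕ, K₀ ≤ K → ∃ c : ℝ, 0 < c ∧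
    ∃ x0 : ℕ, ∀ x : ℕ, x0 ≤ x →
    c * ({n : ℕ | Nat.nth (AT K) n ≤ x}.ncard : ℝ)
      ≤ ({n : ℕ | Nat.nth (AT K) n ≤ x ∧
          ∀ i ≤ m, Nat.nth (AT K) (n + i) ≡ a [MOD q]}.ncard : ℝ) := by
  obtain ⟨K₀, hK⟩ := h1 m q a hq hc
  refine ⟨max K₀ 1, fun K hKK => ?_⟩
  obtain ⟨c, lam, x1, hc0, hlam, hx1⟩ := hK K ((le_max_left _ _).trans hKK)
  obtain ⟨C, x2, hx2⟩ := h2 K ((le_max_right _ _).trans hKK)
  -- infinitely many
  have hinf : (Set.ofPred (AT K)).Infinite := by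
    rw [Set.infinite_iff_exists_gt]
    intro b
    obtain ⟨x, hx⟩ : ∃ x : ℕ, x = max (max x1 b) 1 := ⟨_, rfl⟩
    have hxa : x1 ≤ x := by omega
    have hxb : b ≤ x := by omega
    have hxc : 1 ≤ x := by omega
    have h3 := hx1 x hxa
    have h4 : 0 < c * (x : ℝ) := by
      have : (0 : ℝ) < x := by exact_mod_cast hxc
      positivity
    have h5 := h4.trans_le h3
    have h6 := Nat.cast_pos.1 h5
    obtain ⟨n, hn⟩ := card_pos.1 h6
    rw [mem_filter, mem_Ioc] at hn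
    obtain ⟨⟨hn1, -⟩, hn2, -⟩ := hn
    obtain ⟨h, hh⟩ := card_pos.1 (lt_of_lt_of_le (Nat.succ_pos m) hn2)
    rw [mem_filter] at hh
    exact ⟨n + h, hh.2, by omega⟩
  have hz : ¬ AT K 0 := fun h => Nat.not_prime_zero h.1
  have ev1 : ∀ᶠ x : ℝ in atTop, ‖Real.log x ^ 2‖ ≤ 1 / (lam + 1) * ‖id x‖ :=
    (Real.isLittleO_pow_log_id_atTop (n := 2)).bound (by positivity)
  obtain ⟨X1, hX1⟩ := eventually_atTop.mp ev1
  refine ⟨c / (80 * lam * (|C| + 1)), by positivity,
    max (max (40 * x1) x2) (max 160 (40 * (⌈X1⌉₊ + 1))), fun X hX => ?_⟩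
  have hXa : 40 * x1 ≤ X := by omega
  have hXb : x2 ≤ X := by omega
  have hXc : 160 ≤ X := by omega
  have hXd : 40 * (⌈X1⌉₊ + 1) ≤ X := by omega
  obtain ⟨x, hx⟩ : ∃ x : ℕ, x = X / 40 := ⟨_, rfl⟩
  have ha : x1 ≤ x := by omega
  have hb : 40 * x ≤ X := by omega
  have hd : X ≤ 80 * x := by omega
  have he : 4 ≤ x := by omega
  have hf : X1 ≤ x := (Nat.le_ceil X1).trans (by
    have : ⌈X1⌉₊ ≤ x := by omega
    exact_mod_cast this)
  have he' : (4 : ℝ) ≤ x := by exact_mod_cast he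
  have hxX : (x : ℝ) ≤ X := by
    have : x ≤ X := by omega
    exact_mod_cast this
  have hlog0 : 0 < Real.log x := Real.log_pos (by linarith)
  have hlog1 : Real.log x ≤ Real.log X := Real.log_le_log (by linarith) hxX
  obtain ⟨Y, hY⟩ : ∃ Y : ℕ, Y = ⌊lam * Real.log x ^ 2⌋₊ := ⟨_, rfl⟩
  have hY1 : (Y : ℝ) ≤ lam * Real.log x ^ 2 := by
    rw [hY]
    exact Nat.floor_le (by positivity)
  have hYx : Y ≤ x := by
    have h3 := hX1 x hf
    rw [id, Real.norm_of_nonneg (by positivity), Real.norm_of_nonneg (by positivity)] at h3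
    have h4 : (Y : ℝ) ≤ x := by
      refine hY1.trans ?_
      calc lam * Real.log x ^ 2 ≤ lam * (1 / (lam + 1) * x) :=
            mul_le_mul_of_nonneg_left h3 hlam.le
        _ = lam / (lam + 1) * x := by ring
        _ ≤ 1 * x := by
            apply mul_le_mul_of_nonneg_right _ (by linarith)
            rw [div_le_one (by positivity)]
            linarith
        _ = x := one_mul _
    exact_mod_cast h4
  have h3 := hx1 x ha
  rw [← hY] at h3
  obtain ⟨Nn, hNn⟩ : ∃ Nn : Finset ℕ, Nn = (Ioc x (32 * x)).filter (fun n =>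
    m + 1 ≤ ((Icc 1 Y).filter (fun h => AT K (n + h))).card ∧
    ∀ h ∈ Icc 1 Y, AT K (n + h) → n + h ≡ a [MOD q]) := ⟨_, rfl⟩
  rw [← hNn] at h3
  obtain ⟨S, hS1, hS2⟩ := cnt (AT K) hinf Nn Y m q a (32 * x)
    (fun n hn => by
      rw [hNn, mem_filter, mem_Ioc] at hn
      exact hn.1.2)
    (fun n hn => by
      rw [hNn, mem_filter] at hn
      exact hn.2)
  have hfin : {n : ℕ | Nat.nth (AT K) n ≤ X ∧
      ∀ i ≤ m, Nat.nth (AT K) (n + i) ≡ a [MOD q]}.Finite := by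
    refine (Set.finite_le_nat X).subset ?_
    rintro n ⟨hn, -⟩
    exact ((Nat.nth_strictMono hinf).id_le n).trans hn
  have hsub : (S : Set ℕ) ⊆ {n : ℕ | Nat.nth (AT K) n ≤ X ∧
      ∀ i ≤ m, Nat.nth (AT K) (n + i) ≡ a [MOD q]} := by
    intro s hs
    obtain ⟨b1, b2⟩ := hS2 s hs
    exact ⟨by omega, b2⟩
  have hcard : (S.card : ℝ) ≤ ({n : ℕ | Nat.nth (AT K) n ≤ X ∧
      ∀ i ≤ m, Nat.nth (AT K) (n + i) ≡ a [MOD q]}.ncard : ℝ) := by
    have := Set.ncard_le_ncard hsub hfin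
    rw [Set.ncard_coe_finset] at this
    exact_mod_cast this
  refine le_trans ?_ hcard
  rw [nth_le_ncard (AT K) hinf X hz]
  have h4 := hx2 X hXb
  have hlogX : 0 < Real.log X := hlog0.trans_le hlog1
  have hSb : c * x ≤ lam * Real.log X ^ 2 * S.card := by
    refine h3.trans ?_
    have g1 : (Nn.card : ℝ) ≤ Y * S.card := by exact_mod_cast hS1
    refine g1.trans ?_
    apply mul_le_mul_of_nonneg_right _ (Nat.cast_nonneg _)
    refine hY1.trans ?_
    apply mul_le_mul_of_nonneg_left _ hlam.le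
    exact pow_le_pow_left₀ hlog0.le hlog1 2
  have hXx : (X : ℝ) ≤ 80 * x := by exact_mod_cast hd
  have hC : C ≤ |C| + 1 := by
    have := le_abs_self C
    linarith
  calc c / (80 * lam * (|C| + 1)) * (((Icc 1 X).filter (fun n => AT K n)).card : ℝ)
      ≤ c / (80 * lam * (|C| + 1)) * (C * (X / Real.log X ^ 2)) :=
        mul_le_mul_of_nonneg_left h4 (by positivity)
    _ ≤ c / (80 * lam * (|C| + 1)) * ((|C| + 1) * (80 * x / Real.log X ^ 2)) := by
        apply mul_le_mul_of_nonneg_left _ (by positivity)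
        have g2 : (X : ℝ) / Real.log X ^ 2 ≤ 80 * x / Real.log X ^ 2 :=
          div_le_div_of_nonneg_right hXx (by positivity)
        have g3 : (0 : ℝ) ≤ X / Real.log X ^ 2 := by positivity
        have g4 : 0 ≤ |C| + 1 := by positivity
        exact mul_le_mul hC g2 g3 g4
    _ = c * x / (lam * Real.log X ^ 2) := by
        field_simp
    _ ≤ S.card := by
        rw [div_le_iff₀ (by positivity)]
        linarith

theorem fn (h1 : StmtPK) (h2 : StmtSB) : Pool.Agent.Helper76.TW.StmtFN := by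
  intro m q hq
  have hA : ∀ a : ℕ, ∃ K₀ : ℕ, ∀ K : ℕ, K₀ ≤ K → ∃ c : ℝ, 0 < c ∧
      ∃ x0 : ℕ, Nat.Coprime (a * (a + 2)) q → ∀ x : ℕ, x0 ≤ x →
      c * ({n : ℕ | Nat.nth (AT K) n ≤ x}.ncard : ℝ)
        ≤ ({n : ℕ | Nat.nth (AT K) n ≤ x ∧
            ∀ i ≤ m, Nat.nth (AT K) (n + i) ≡ a [MOD q]}.ncard : ℝ) := by
    intro a
    by_cases hc : Nat.Coprime (a * (a + 2)) q
    · obtain ⟨K₀, hK⟩ := one h1 h2 m q a hq hc
      refine ⟨K₀, fun K hKK => ?_⟩
      obtain ⟨c, hc0, x0, h⟩ := hK K hKK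
      exact ⟨c, hc0, x0, fun _ => h⟩
    · exact ⟨0, fun K _ => ⟨1, one_pos, 0, fun h => absurd h hc⟩⟩
  choose K₀ hK using hA
  refine ⟨(range q).sup K₀, fun K hKK => ?_⟩
  have hB : ∀ a : ℕ, ∃ c : ℝ, 0 < c ∧ ∃ x0 : ℕ, a ∈ range q →
      Nat.Coprime (a * (a + 2)) q → ∀ x : ℕ, x0 ≤ x →
      c * ({n : ℕ | Nat.nth (AT K) n ≤ x}.ncard : ℝ)
        ≤ ({n : ℕ | Nat.nth (AT K) n ≤ x ∧
            ∀ i ≤ m, Nat.nth (AT K) (n + i) ≡ a [MOD q]}.ncard : ℝ) := by
    intro a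
    by_cases ha : a ∈ range q
    · obtain ⟨c, hc0, x0, h⟩ := hK a K ((le_sup ha).trans hKK)
      exact ⟨c, hc0, x0, fun _ => h⟩
    · exact ⟨1, one_pos, 0, fun h => absurd h ha⟩
  choose c hc x0 hx0 using hB
  have hne : (range q).Nonempty := ⟨0, mem_range.2 (by omega)⟩
  obtain ⟨b, hb1, hb2⟩ := exists_min_image (range q) c hne
  refine ⟨c b, hc b, (range q).sup x0, fun a ha x hx => ?_⟩
  have hr : a % q ∈ range q := mem_range.2 (Nat.mod_lt _ (by omega))
  have hcop : Nat.Coprime (a % q * (a % q + 2)) q := by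
    have h3 : a % q * (a % q + 2) ≡ a * (a + 2) [MOD q] :=
      (Nat.mod_modEq a q).mul ((Nat.mod_modEq a q).add_right 2)
    have h4 := h3.gcd_eq
    unfold Nat.Coprime at ha ⊢
    rw [h4]
    exact ha
  have h5 := hx0 (a % q) hr hcop x ((le_sup hr).trans hx)
  have h6 : c b ≤ c (a % q) := hb2 _ hr
  have h7 : {n : ℕ | Nat.nth (AT K) n ≤ x ∧
      ∀ i ≤ m, Nat.nth (AT K) (n + i) ≡ a % q [MOD q]} = {n : ℕ | Nat.nth (AT K) n ≤ x ∧
      ∀ i ≤ m, Nat.nth (AT K) (n + i) ≡ a [MOD q]} := by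
    ext n
    simp only [Set.mem_ofPred_eq, Nat.ModEq, Nat.mod_mod]
  rw [h7] at h5
  refine le_trans ?_ h5
  exact mul_le_mul_of_nonneg_right h6 (Nat.cast_nonneg _)

end Pool.Agent.Helper85.TW
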